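import Pool.Agent.Helper81.BL2.Num
import Pool.Agent.Helper43.BL2.Blk

/-!
If the Hodge numbers of a block at two places are both of dominant type, the second ones have no factorisation with a
factor whose total divides all the first ones.
-/

namespace MH

private lemma fin_case {u v : ℤ → ℕ} {S S' : Finset ℤ} {r : ℕ} (hS : ∀ p, p ∉ S → u p = 0)
    (hS' : ∀ p, p ∉ S' → v p = 0) (hr : ∑ p ∈ S, u p = r) (hr' : ∑ p ∈ S', v p = r) (hu : DomF u S r) (hv : DomF v S' r)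
    (hn : ∀ p, u p ≠ r) (f g : ℤ →₀ ℕ) (hf : ∀ p : ℤ, v p = f.sum fun i x => x * g (p - i))
    (hg : ∀ p, (g.sum fun _ x => x) ∣ u p) (cg : 2 ≤ g.support.card) (cf : f.support.card ≤ 1) : False := by
  classical
  have t1 := sum_conv81 f g hS' hf (fun _ => True)
  simp only [Finset.filter_true, if_true] at t1
  rw [hr', sum_mul81] at t1
  obtain ⟨e, he⟩ : ∃ e, e = ∑ i ∈ g.support, g i := ⟨_, rfl⟩
  obtain ⟨d, hd⟩ : ∃ d, d = ∑ i ∈ f.support, f i := ⟨_, rfl⟩
  have hge : ∀ p, e ∣ u p := fun p => by rw [he]; exact hg p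
  rw [← he, ← hd] at t1
  have he2 : 2 ≤ e := by
    rw [he]
    calc 2 ≤ g.support.card := cg
      _ = ∑ i ∈ g.support, 1 := by simp
      _ ≤ ∑ i ∈ g.support, g i := Finset.sum_le_sum fun i hi => Nat.pos_of_ne_zero (Finsupp.mem_support_iff.1 hi)
  have a1 := dom_le81 hS hr hu hn (by omega : 1 < e) ⟨d, by rw [t1]; ring⟩ hge
  -- `f` has one term
  have hd0 : d ≠ 0 := by
    rintro rfl
    rw [zero_mul] at t1
    rw [t1] at a1
    nlinarith
  have hd1 : d ≠ 1 := by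
    rintro rfl
    rw [one_mul] at t1
    rw [t1] at a1
    nlinarith
  obtain ⟨i0, hi0⟩ : ∃ i0, f.support = {i0} := by
    have h1 : f.support.card ≠ 0 := by
      intro h
      rw [Finset.card_eq_zero] at h
      rw [h, Finset.sum_empty] at hd
      exact hd0 hd
    exact Finset.card_eq_one.1 (by omega)
  have hdi : d = f i0 := by rw [hd, hi0, Finset.sum_singleton]
  have hvp : ∀ p, v p = d * g (p - i0) := by
    intro p
    rw [hf p]
    unfold Finsupp.sum
    rw [hi0, Finset.sum_singleton, hdi]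
  have hlt : ∀ q, g q < e := by
    intro q
    obtain ⟨j, hj, hne⟩ : ∃ j ∈ g.support, j ≠ q := Finset.exists_mem_ne (by omega) _
    have h1 : g j ≠ 0 := Finsupp.mem_support_iff.1 hj
    by_cases hq : q ∈ g.support
    · have h2 : g q + g j ≤ e := by
        rw [he, ← Finset.sum_pair (f := fun i => g i) (Ne.symm hne)]
        exact Finset.sum_le_sum_of_subset (by
          intro x hx
          rcases Finset.mem_insert.1 hx with rfl | hx
          · exact hq
          · rw [Finset.mem_singleton] at hx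
            rw [hx]; exact hj)
      omega
    · rw [Finsupp.notMem_support_iff.1 hq]; omega
  have hvn : ∀ p, v p ≠ r := by
    intro p hp
    rw [hvp p, t1] at hp
    have h1 := hlt (p - i0)
    have h2 : g (p - i0) = e := Nat.eq_of_mul_eq_mul_left (Nat.pos_of_ne_zero hd0) hp
    omega
  have a2 := dom_le81 hS' hr' hv hvn (by omega : 1 < d) ⟨e, t1⟩ (fun p => ⟨_, hvp p⟩)
  have a3 : (e + 1) ^ 2 * (d + 1) ^ 2 ≤ r * r := Nat.mul_le_mul a1 a2
  rw [t1] at a3
  have a4 : (d * e) * (d * e) < (e + 1) ^ 2 * (d + 1) ^ 2 := by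
    have : d * e < (e + 1) * (d + 1) := by nlinarith
    calc (d * e) * (d * e) < ((e + 1) * (d + 1)) * ((e + 1) * (d + 1)) := Nat.mul_lt_mul'' this this
      _ = _ := by ring
  omega

/-- both of type `DomG` -/
theorem noF_dom {u v : ℤ → ℕ} {S S' : Finset ℤ} {r : ℕ} (hS : ∀ p, p ∉ S → u p = 0) (hS' : ∀ p, p ∉ S' → v p = 0)
    (hr : ∑ p ∈ S, u p = r) (hr' : ∑ p ∈ S', v p = r) (hu : ∃ p, r ≤ u p + 1 ∨ (r - u p + 1) ^ 2 ≤ r)
    (hv : ∃ p, r ≤ v p + 1 ∨ (r - v p + 1) ^ 2 ≤ r) (hn : ∀ p, u p ≠ r) : NoF u v := by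
  intro f g hf hg
  by_contra cg
  obtain ⟨p, hp⟩ := hv
  rcases indecU_dom hS' hr' hp f g hf with h | h
  · exact fin_case hS hS' hr hr' (Or.inl hu) (Or.inl ⟨p, hp⟩) hn f g hf hg (by omega) h
  · exact cg h

/-- both of type `DomF`; the second one about `m` -/
theorem noFS_dom {m : ℤ} {u v : ℤ → ℕ} {S S' : Finset ℤ} {r : ℕ} (hS : ∀ p, p ∉ S → u p = 0)
    (hS' : ∀ p, p ∉ S' → v p = 0) (hr : ∑ p ∈ S, u p = r) (hr' : ∑ p ∈ S', v p = r) (hu : DomF u S r)
    (hv : (∃ p, r ≤ v p + 1 ∨ (r - v p + 1) ^ 2 ≤ r) ∨ ((∀ k, v (m - k) = v (m + k)) ∧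
      2 ≤ ∑ p ∈ S'.filter (fun p => m < p), v p ∧ (∑ p ∈ S'.filter (fun p => m < p), v p) ^ 2 < v m))
    (hn : ∀ p, u p ≠ r) : NoFS (2 * m) u v := by
  intro a f g sf sg hf hg
  by_contra cg
  rcases hv with ⟨p, hp⟩ | ⟨h1, h2, h3⟩
  · rcases indecU_dom hS' hr' hp f g hf with h | h
    · exact fin_case hS hS' hr hr' hu (Or.inl ⟨p, hp⟩) hn f g hf hg (by omega) h
    · exact cg h
  · rcases indec_domM hS' h2 h3 a f g sf sg hf with h | h
    · exact fin_case hS hS' hr hr' hu (Or.inr ⟨m, h1, h2, h3⟩) hn f g hf hg (by omega) h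
    · exact cg h

end MH
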