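import Pool.Agent.Helper98.AT.Dich
import Pool.Agent.Helper55.NI.Pal

/-!
Numerics for the blocks of dominant type: a dominant Hodge number makes the numbers indecomposable, and two such
families of numbers have no common factorisation of the rank.
-/

namespace MH

/-- the coefficient of a product as a sum over pairs -/
theorem conv_eq81 (F G : ℤ →₀ ℕ) (p : ℤ) :
    (F.sum fun i x => x * G (p - i)) =
      ∑ i ∈ F.support, ∑ j ∈ G.support, if i + j = p then F i * G j else 0 := by
  classical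
  unfold Finsupp.sum
  refine Finset.sum_congr rfl fun i _ => ?_
  rw [← Finset.sum_filter]
  by_cases hj : p - i ∈ G.support
  · have e1 : G.support.filter (fun j => i + j = p) = {p - i} := by
      ext j
      simp only [Finset.mem_filter, Finset.mem_singleton]
      constructor
      · rintro ⟨_, h⟩; omega
      · rintro rfl; exact ⟨hj, by omega⟩
    rw [e1, Finset.sum_singleton]
  · have e1 : G.support.filter (fun j => i + j = p) = ∅ := by
      ext j
      simp only [Finset.mem_filter, Finset.notMem_empty, iff_false, not_and]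
      intro h1 h2
      exact hj (by rwa [show p - i = j by omega])
    rw [e1, Finset.sum_empty]
    show F i * G (p - i) = 0
    rw [Finsupp.notMem_support_iff.1 hj, mul_zero]

/-- sums of coefficients over the indices with a property -/
theorem sum_conv81 (F G : ℤ →₀ ℕ) {f : ℤ → ℕ} {S : Finset ℤ} (hS : ∀ p, p ∉ S → f p = 0)
    (hf : ∀ p : ℤ, f p = F.sum fun i x => x * G (p - i)) (P : ℤ → Prop) [DecidablePred P] :
    ∑ p ∈ S.filter P, f p =
      ∑ i ∈ F.support, ∑ j ∈ G.support, if P (i + j) then F i * G j else 0 := by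
  classical
  obtain ⟨U, hU⟩ : ∃ U : Finset ℤ, U = S ∪ (F.support ×ˢ G.support).image (fun x => x.1 + x.2) := ⟨_, rfl⟩
  have e1 : ∑ p ∈ S.filter P, f p = ∑ p ∈ U.filter P, f p := by
    refine Finset.sum_subset (Finset.filter_subset_filter _ (by rw [hU]; exact Finset.subset_union_left)) ?_
    intro p hp hp'
    apply hS
    intro hp2
    exact hp' (Finset.mem_filter.2 ⟨hp2, (Finset.mem_filter.1 hp).2⟩)
  rw [e1]
  have e2 : ∀ p ∈ U.filter P, f p =
      ∑ i ∈ F.support, ∑ j ∈ G.support, if i + j = p then F i * G j else 0 := by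
    intro p _
    rw [hf, conv_eq81]
  rw [Finset.sum_congr rfl e2, Finset.sum_comm]
  refine Finset.sum_congr rfl fun i hi => ?_
  rw [Finset.sum_comm]
  refine Finset.sum_congr rfl fun j hj => ?_
  rw [Finset.sum_ite_eq]
  have h3 : i + j ∈ U := by
    rw [hU]
    exact Finset.mem_union_right _ (Finset.mem_image.2 ⟨(i, j), Finset.mem_product.2 ⟨hi, hj⟩, rfl⟩)
  by_cases h4 : P (i + j)
  · rw [if_pos (Finset.mem_filter.2 ⟨h3, h4⟩), if_pos h4]
  · rw [if_neg (fun h => h4 (Finset.mem_filter.1 h).2), if_neg h4]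

private lemma ge_left (F G : ℤ →₀ ℕ) (p : ℤ) (hG : 2 ≤ G.support.card) :
    ∑ i ∈ F.support, F i ≤ ∑ i ∈ F.support, ∑ j ∈ G.support, if ¬ (i + j = p) then F i * G j else 0 := by
  classical
  refine Finset.sum_le_sum fun i _ => ?_
  obtain ⟨j, hj, hne⟩ : ∃ j ∈ G.support, j ≠ p - i := Finset.exists_mem_ne (by omega) _
  have h1 : (if ¬ (i + j = p) then F i * G j else 0) ≤
      ∑ j ∈ G.support, if ¬ (i + j = p) then F i * G j else 0 :=
    Finset.single_le_sum (f := fun j => if ¬ (i + j = p) then F i * G j else 0) (fun _ _ => Nat.zero_le _) hj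
  refine le_trans ?_ h1
  rw [if_pos (by intro h; exact hne (by omega))]
  exact Nat.le_mul_of_pos_right _ (Nat.pos_of_ne_zero (Finsupp.mem_support_iff.1 hj))

private lemma two_le_sum (F : ℤ →₀ ℕ) (hF : 2 ≤ F.support.card) : 2 ≤ ∑ i ∈ F.support, F i := by
  calc 2 ≤ F.support.card := hF
    _ = ∑ i ∈ F.support, 1 := by simp
    _ ≤ ∑ i ∈ F.support, F i := Finset.sum_le_sum fun i hi => Nat.pos_of_ne_zero (Finsupp.mem_support_iff.1 hi)

theorem sum_mul81 (F G : ℤ →₀ ℕ) :
    ∑ i ∈ F.support, ∑ j ∈ G.support, F i * G j = (∑ i ∈ F.support, F i) * ∑ j ∈ G.support, G j := by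
  rw [Finset.sum_mul_sum]

theorem indecU_dom {f : ℤ → ℕ} {S : Finset ℤ} {r : ℕ} (hS : ∀ p, p ∉ S → f p = 0) (hr : ∑ p ∈ S, f p = r) {p : ℤ}
    (hp : r ≤ f p + 1 ∨ (r - f p + 1) ^ 2 ≤ r) : IndecU f := by
  classical
  intro F G hf
  by_contra hcon
  rw [not_or, not_le, not_le] at hcon
  obtain ⟨hF, hG⟩ := hcon
  have hF : 2 ≤ F.support.card := hF
  have hG : 2 ≤ G.support.card := hG
  have t1 := sum_conv81 F G hS hf (fun _ => True)
  simp only [Finset.filter_true, if_true] at t1
  rw [hr, sum_mul81] at t1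
  have t2 : f p = ∑ i ∈ F.support, ∑ j ∈ G.support, if i + j = p then F i * G j else 0 := by rw [hf, conv_eq81]
  obtain ⟨c, hc⟩ : ∃ c, c = ∑ i ∈ F.support, ∑ j ∈ G.support, if ¬ (i + j = p) then F i * G j else 0 := ⟨_, rfl⟩
  have t3 : r = f p + c := by
    rw [hc, t2, t1, ← sum_mul81, ← Finset.sum_add_distrib]
    refine Finset.sum_congr rfl fun i _ => ?_
    rw [← Finset.sum_add_distrib]
    refine Finset.sum_congr rfl fun j _ => ?_
    by_cases h : i + j = p <;> simp [h]
  have c1 : ∑ i ∈ F.support, F i ≤ c := by rw [hc]; exact ge_left F G p hG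
  have c2 : ∑ i ∈ G.support, G i ≤ c := by
    rw [hc, Finset.sum_comm]
    have := ge_left G F p hF
    refine this.trans (le_of_eq ?_)
    refine Finset.sum_congr rfl fun i _ => Finset.sum_congr rfl fun j _ => ?_
    rw [add_comm i j, mul_comm (G i) (F j)]
  have d1 := two_le_sum F hF
  obtain ⟨a, ha⟩ : ∃ a, a = ∑ i ∈ F.support, F i := ⟨_, rfl⟩
  obtain ⟨b, hb⟩ : ∃ b, b = ∑ i ∈ G.support, G i := ⟨_, rfl⟩
  rw [← ha, ← hb] at t1
  rw [← ha] at c1 d1
  rw [← hb] at c2
  rcases hp with hp | hp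
  · omega
  · have e1 : r - f p = c := by omega
    rw [e1] at hp
    have : r ≤ c * c := by rw [t1]; exact Nat.mul_le_mul c1 c2
    nlinarith

/-- reflection of a sum of a finitely supported function -/
private lemma refl_sum (F : ℤ →₀ ℕ) {a : ℤ} (hF : ∀ j, F (a - j) = F j) :
    ∑ i ∈ F.support.filter (fun i => 2 * i < a), F i = ∑ i ∈ F.support.filter (fun i => a < 2 * i), F i := by
  classical
  refine Finset.sum_bij' (fun i _ => a - i) (fun i _ => a - i) ?_ ?_ ?_ ?_ ?_
  · intro i hi
    rw [Finset.mem_filter, Finsupp.mem_support_iff] at hi ⊢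
    exact ⟨by rw [hF]; exact hi.1, by omega⟩
  · intro i hi
    rw [Finset.mem_filter, Finsupp.mem_support_iff] at hi ⊢
    exact ⟨by rw [hF]; exact hi.1, by omega⟩
  · intro i _; show a - (a - i) = i; omega
  · intro i _; show a - (a - i) = i; omega
  · intro i _; show F i = F (a - i); rw [hF]

private lemma tot (F : ℤ →₀ ℕ) {a : ℤ} (hF : ∀ j, F (a - j) = F j) :
    ∑ i ∈ F.support, F i = ∑ i ∈ F.support.filter (fun i => 2 * i = a), F i +
      2 * ∑ i ∈ F.support.filter (fun i => a < 2 * i), F i := by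
  classical
  have e1 := Finset.sum_filter_add_sum_filter_not F.support (fun i => 2 * i = a) (fun i => F i)
  have e2 := Finset.sum_filter_add_sum_filter_not (F.support.filter (fun i => ¬ 2 * i = a)) (fun i => a < 2 * i)
    (fun i => F i)
  rw [Finset.filter_filter, Finset.filter_filter] at e2
  have e3 : F.support.filter (fun i => ¬ 2 * i = a ∧ a < 2 * i) = F.support.filter (fun i => a < 2 * i) :=
    Finset.filter_congr fun i _ => ⟨fun h => h.2, fun h => ⟨by omega, h⟩⟩
  have e4 : F.support.filter (fun i => ¬ 2 * i = a ∧ ¬ a < 2 * i) = F.support.filter (fun i => 2 * i < a) :=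
    Finset.filter_congr fun i _ => ⟨fun h => by omega, fun h => ⟨by omega, by omega⟩⟩
  rw [e3, e4, refl_sum F hF] at e2
  omega

private lemma pos_of_two (F : ℤ →₀ ℕ) {a : ℤ} (hF : ∀ j, F (a - j) = F j) (h2 : 2 ≤ F.support.card) :
    1 ≤ ∑ i ∈ F.support.filter (fun i => a < 2 * i), F i := by
  classical
  obtain ⟨i, hi, hne⟩ : ∃ i ∈ F.support, 2 * i ≠ a := by
    by_contra hcon
    push Not at hcon
    obtain ⟨i, hi, j, hj, hij⟩ := Finset.one_lt_card.1 (show 1 < F.support.card by omega)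
    have h1 := hcon i hi
    have h2 := hcon j hj
    exact hij (by omega)
  obtain ⟨k, hk, hk2⟩ : ∃ k ∈ F.support, a < 2 * k := by
    rcases lt_or_gt_of_ne hne with h | h
    · exact ⟨a - i, by rw [Finsupp.mem_support_iff, hF]; exact Finsupp.mem_support_iff.1 hi, by omega⟩
    · exact ⟨i, hi, h⟩
  have hk3 : k ∈ F.support.filter (fun i => a < 2 * i) := Finset.mem_filter.2 ⟨hk, hk2⟩
  exact le_trans (Nat.pos_of_ne_zero (Finsupp.mem_support_iff.1 hk))
    (Finset.single_le_sum (f := fun i => F i) (fun _ _ => Nat.zero_le _) hk3)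

/-- a sum over a product of two sets is at most the sum over the pairs with a property -/
private lemma part (F G : ℤ →₀ ℕ) (P : ℤ → ℤ → Prop) [∀ i j, Decidable (P i j)] (A B : ℤ → Prop) [DecidablePred A]
    [DecidablePred B] (h : ∀ i j, A i → B j → P i j) :
    (∑ i ∈ F.support.filter A, F i) * (∑ j ∈ G.support.filter B, G j) =
      ∑ i ∈ F.support, ∑ j ∈ G.support, if P i j ∧ A i ∧ B j then F i * G j else 0 := by
  classical
  rw [Finset.sum_mul_sum, Finset.sum_filter]
  refine Finset.sum_congr rfl fun i _ => ?_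
  by_cases hA : A i
  · rw [if_pos hA, Finset.sum_filter]
    refine Finset.sum_congr rfl fun j _ => ?_
    by_cases hB : B j
    · rw [if_pos hB, if_pos ⟨h i j hA hB, hA, hB⟩]
    · rw [if_neg hB, if_neg (fun h => hB h.2.2)]
  · rw [if_neg hA]
    refine (Finset.sum_eq_zero fun j _ => ?_).symm
    rw [if_neg (fun h => hA h.2.1)]

theorem indec_domM {m : ℤ} {f : ℤ → ℕ} {S : Finset ℤ} (hS : ∀ p, p ∉ S → f p = 0)
    (h2 : 2 ≤ ∑ p ∈ S.filter (fun p => m < p), f p) (hq : (∑ p ∈ S.filter (fun p => m < p), f p) ^ 2 < f m) :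
    NI.Indec (2 * m) f := by
  classical
  intro a F G hF hG hf
  by_contra hcon
  rw [not_or, not_le, not_le] at hcon
  obtain ⟨cF, cG⟩ := hcon
  have cF : 2 ≤ F.support.card := cF
  have cG : 2 ≤ G.support.card := cG
  obtain ⟨t, ht⟩ : ∃ t, t = ∑ p ∈ S.filter (fun p => m < p), f p := ⟨_, rfl⟩
  rw [← ht] at h2 hq
  have t1 : t = ∑ i ∈ F.support, ∑ j ∈ G.support, if m < i + j then F i * G j else 0 := by
    rw [ht]; exact sum_conv81 F G hS hf (fun p => m < p)
  have t2 : f m = ∑ i ∈ F.support, ∑ j ∈ G.support, if i + j = m then F i * G j else 0 := by rw [hf, conv_eq81]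
  have t3 : ∑ i ∈ F.support, ∑ j ∈ G.support, (if i + j < m then F i * G j else 0) = t := by
    rw [t1]
    refine Finset.sum_bij' (fun i _ => a - i) (fun i _ => a - i) ?_ ?_ ?_ ?_ ?_
    · intro i hi
      rw [Finsupp.mem_support_iff] at hi ⊢
      rw [hF]; exact hi
    · intro i hi
      rw [Finsupp.mem_support_iff] at hi ⊢
      rw [hF]; exact hi
    · intro i _; show a - (a - i) = i; omega
    · intro i _; show a - (a - i) = i; omega
    · intro i _
      refine Finset.sum_bij' (fun j _ => 2 * m - a - j) (fun j _ => 2 * m - a - j) ?_ ?_ ?_ ?_ ?_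
      · intro j hj
        rw [Finsupp.mem_support_iff] at hj ⊢
        rw [hG]; exact hj
      · intro j hj
        rw [Finsupp.mem_support_iff] at hj ⊢
        rw [hG]; exact hj
      · intro j _; show 2 * m - a - (2 * m - a - j) = j; omega
      · intro j _; show 2 * m - a - (2 * m - a - j) = j; omega
      · intro j _
        show (if i + j < m then F i * G j else 0) =
          if m < (a - i) + (2 * m - a - j) then F (a - i) * G (2 * m - a - j) else 0
        rw [hF, hG]
        by_cases h : i + j < m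
        · rw [if_pos h, if_pos (by omega)]
        · rw [if_neg h, if_neg (by omega)]
  have t4 : (∑ i ∈ F.support, F i) * ∑ j ∈ G.support, G j = 2 * t + f m := by
    rw [← sum_mul81, two_mul]
    nth_rewrite 1 [t1]
    rw [← t3, t2, ← Finset.sum_add_distrib, ← Finset.sum_add_distrib]
    refine Finset.sum_congr rfl fun i _ => ?_
    rw [← Finset.sum_add_distrib, ← Finset.sum_add_distrib]
    refine Finset.sum_congr rfl fun j _ => ?_
    rcases lt_trichotomy (i + j) m with h | h | h
    · rw [if_neg (by omega), if_pos h, if_neg (by omega)]; omega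
    · rw [if_neg (by omega), if_neg (by omega), if_pos h]; omega
    · rw [if_pos h, if_neg (by omega), if_neg (by omega)]; omega
  obtain ⟨x, hx⟩ : ∃ x, x = ∑ i ∈ F.support.filter (fun i => a < 2 * i), F i := ⟨_, rfl⟩
  obtain ⟨y, hy⟩ : ∃ y, y = ∑ j ∈ G.support.filter (fun j => 2 * m - a < 2 * j), G j := ⟨_, rfl⟩
  obtain ⟨A, hA⟩ : ∃ A, A = ∑ i ∈ F.support.filter (fun i => 2 * i = a), F i := ⟨_, rfl⟩
  obtain ⟨B, hB⟩ : ∃ B, B = ∑ j ∈ G.support.filter (fun j => 2 * j = 2 * m - a), G j := ⟨_, rfl⟩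
  have x1 : 1 ≤ x := by rw [hx]; exact pos_of_two F hF cF
  have y1 : 1 ≤ y := by rw [hy]; exact pos_of_two G hG cG
  rw [tot F hF, tot G hG, ← hx, ← hy, ← hA, ← hB] at t4
  have t5 : A * y + x * B + x * y ≤ t := by
    rw [hA, hy, hx, hB, t1,
      part F G (fun i j => m < i + j) (fun i => 2 * i = a) (fun j => 2 * m - a < 2 * j) (by intro i j h1 h2; omega),
      part F G (fun i j => m < i + j) (fun i => a < 2 * i) (fun j => 2 * j = 2 * m - a) (by intro i j h1 h2; omega),
      part F G (fun i j => m < i + j) (fun i => a < 2 * i) (fun j => 2 * m - a < 2 * j) (by intro i j h1 h2; omega),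
      ← Finset.sum_add_distrib, ← Finset.sum_add_distrib]
    refine Finset.sum_le_sum fun i _ => ?_
    rw [← Finset.sum_add_distrib, ← Finset.sum_add_distrib]
    refine Finset.sum_le_sum fun j _ => ?_
    by_cases h : m < i + j
    · simp only [h, true_and, if_true]
      rcases lt_trichotomy (2 * i) a with h1 | h1 | h1
      · rw [if_neg (by omega), if_neg (by omega), if_neg (by omega)]; exact Nat.zero_le _
      · by_cases h3 : 2 * m - a < 2 * j
        · rw [if_pos ⟨h1, h3⟩, if_neg (by omega), if_neg (by omega)]; omega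
        · rw [if_neg (by omega), if_neg (by omega), if_neg (by omega)]; exact Nat.zero_le _
      · by_cases h3 : 2 * m - a < 2 * j
        · rw [if_neg (by omega), if_neg (by omega), if_pos ⟨h1, h3⟩]; omega
        · by_cases h4 : 2 * j = 2 * m - a
          · rw [if_neg (by omega), if_pos ⟨h1, h4⟩, if_neg (by omega)]; omega
          · rw [if_neg (by omega), if_neg (by omega), if_neg (by omega)]; exact Nat.zero_le _
    · simp [h]
  -- arithmetic
  have t6 : t ^ 2 + 2 * t < (A + 2 * x) * (B + 2 * y) := by omega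
  have t7 : (t + 1) ^ 2 ≤ (A + 2 * x) * (B + 2 * y) := by nlinarith
  have hs : (A * y + x * B + x * y + 1) ^ 2 ≤ (A + 2 * x) * (B + 2 * y) :=
    le_trans (Nat.pow_le_pow_left (by omega) 2) t7
  obtain ⟨x', rfl⟩ : ∃ x', x = x' + 1 := ⟨x - 1, by omega⟩
  obtain ⟨y', rfl⟩ : ∃ y', y = y' + 1 := ⟨y - 1, by omega⟩
  have hA0 : A = 0 := by
    by_contra hne
    obtain ⟨A', rfl⟩ : ∃ A', A = A' + 1 := ⟨A - 1, by omega⟩
    ring_nf at hs
    nlinarith [Nat.zero_le (A' * B), Nat.zero_le (A' * y'), Nat.zero_le (x' * B), Nat.zero_le (x' * y')]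
  have hB0 : B = 0 := by
    by_contra hne
    obtain ⟨B', rfl⟩ : ∃ B', B = B' + 1 := ⟨B - 1, by omega⟩
    ring_nf at hs
    nlinarith [Nat.zero_le (A * B'), Nat.zero_le (A * y'), Nat.zero_le (x' * B'), Nat.zero_le (x' * y')]
  subst hA0 hB0
  have hxy : x' = 0 ∧ y' = 0 := by
    constructor
    · by_contra hne
      have : 1 ≤ x' := by omega
      ring_nf at hs
      nlinarith [Nat.zero_le (x' * y'), Nat.zero_le (x' * y' ^ 2), Nat.zero_le (x' ^ 2 * y')]
    · by_contra hne
      have : 1 ≤ y' := by omega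
      ring_nf at hs
      nlinarith [Nat.zero_le (x' * y'), Nat.zero_le (x' * y' ^ 2), Nat.zero_le (x' ^ 2 * y')]
  obtain ⟨rfl, rfl⟩ := hxy
  nlinarith

/-- numbers of dominant type -/
def DomF (f : ℤ → ℕ) (S : Finset ℤ) (r : ℕ) : Prop :=
  (∃ p, r ≤ f p + 1 ∨ (r - f p + 1) ^ 2 ≤ r) ∨
    ∃ m, (∀ k, f (m - k) = f (m + k)) ∧ 2 ≤ ∑ p ∈ S.filter (fun p => m < p), f p ∧
      (∑ p ∈ S.filter (fun p => m < p), f p) ^ 2 < f m

theorem dom_le81 {f : ℤ → ℕ} {S : Finset ℤ} {r : ℕ} (hS : ∀ p, p ∉ S → f p = 0) (hr : ∑ p ∈ S, f p = r)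
    (hD : DomF f S r) (hn : ∀ p, f p ≠ r) {d : ℕ} (hd : 1 < d) (hdr : d ∣ r) (hdf : ∀ p, d ∣ f p) :
    (d + 1) ^ 2 ≤ r := by
  classical
  rcases hD with ⟨p, hp⟩ | ⟨m, hsym, h2, hq⟩
  · have hle : f p ≤ r := by
      by_cases h : p ∈ S
      · rw [← hr]; exact Finset.single_le_sum (f := fun p => f p) (fun _ _ => Nat.zero_le _) h
      · rw [hS p h]; exact Nat.zero_le _
    have hlt : f p < r := lt_of_le_of_ne hle (hn p)
    have h3 : d ∣ r - f p := Nat.dvd_sub hdr (hdf p)
    have h4 : d ≤ r - f p := Nat.le_of_dvd (by omega) h3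
    rcases hp with hp | hp
    · omega
    · exact le_trans (Nat.pow_le_pow_left (by omega) 2) hp
  · obtain ⟨t, ht⟩ : ∃ t, t = ∑ p ∈ S.filter (fun p => m < p), f p := ⟨_, rfl⟩
    rw [← ht] at h2 hq
    have hm : m ∈ S := by
      by_contra h
      rw [hS m h] at hq
      omega
    have h3 : ∑ p ∈ S.filter (fun p => p < m), f p = t := by
      rw [ht]
      refine Finset.sum_bij_ne_zero (fun p _ _ => 2 * m - p) ?_ ?_ ?_ ?_
      · intro p hp h0
        rw [Finset.mem_filter] at hp ⊢
        refine ⟨?_, by omega⟩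
        by_contra h
        have e1 := hsym (m - p)
        rw [show m - (m - p) = p by omega, show m + (m - p) = 2 * m - p by omega, hS _ h] at e1
        exact h0 e1
      · intro p _ _ q _ _ h; omega
      · intro p hp h0
        rw [Finset.mem_filter] at hp
        have e1 := hsym (p - m)
        rw [show m - (p - m) = 2 * m - p by omega, show m + (p - m) = p by omega] at e1
        refine ⟨2 * m - p, ?_, ?_, by omega⟩
        · rw [Finset.mem_filter]
          refine ⟨?_, by omega⟩
          by_contra h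
          rw [hS _ h] at e1
          exact h0 e1.symm
        · rw [e1]; exact h0
      · intro p _ _
        have e1 := hsym (m - p)
        rw [show m - (m - p) = p by omega, show m + (m - p) = 2 * m - p by omega] at e1
        exact e1
    have h4 : r = 2 * t + f m := by
      have e1 := Finset.sum_filter_add_sum_filter_not S (fun p => m < p) (fun p => f p)
      have e2 := Finset.sum_filter_add_sum_filter_not (S.filter (fun p => ¬ m < p)) (fun p => p < m) (fun p => f p)
      rw [Finset.filter_filter, Finset.filter_filter] at e2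
      have e3 : S.filter (fun p => ¬ m < p ∧ p < m) = S.filter (fun p => p < m) :=
        Finset.filter_congr fun i _ => ⟨fun h => h.2, fun h => ⟨by omega, h⟩⟩
      have e4 : S.filter (fun p => ¬ m < p ∧ ¬ p < m) = {m} := by
        ext p
        rw [Finset.mem_filter, Finset.mem_singleton]
        constructor
        · rintro ⟨_, h⟩; omega
        · rintro rfl; exact ⟨hm, by omega⟩
      rw [e3, e4, h3, Finset.sum_singleton] at e2
      rw [← ht] at e1
      omega
    have h5 : d ∣ t := by rw [ht]; exact Finset.dvd_sum fun p _ => hdf p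
    have h6 : d ≤ t := Nat.le_of_dvd (by omega) h5
    have h7 : (t + 1) ^ 2 ≤ r := by rw [h4]; nlinarith
    exact le_trans (Nat.pow_le_pow_left (by omega) 2) h7

theorem nf_dom {f f' : ℤ → ℕ} {S S' : Finset ℤ} {r : ℕ} (hS : ∀ p, p ∉ S → f p = 0) (hS' : ∀ p, p ∉ S' → f' p = 0)
    (hr : ∑ p ∈ S, f p = r) (hr' : ∑ p ∈ S', f' p = r) (hD : DomF f S r) (hD' : DomF f' S' r) (hn : ∀ p, f p ≠ r)
    (hn' : ∀ p, f' p ≠ r) :
    ¬ ∃ d d' : ℕ, 1 < d ∧ 1 < d' ∧ d * d' = r ∧ (∀ p, d ∣ f p) ∧ ∀ p, d' ∣ f' p := by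
  rintro ⟨d, d', h1, h1', h2, h3, h3'⟩
  have a1 := dom_le81 hS hr hD hn h1 ⟨d', h2.symm⟩ h3
  have a2 := dom_le81 hS' hr' hD' hn' h1' ⟨d, by rw [← h2]; ring⟩ h3'
  have a3 : (d + 1) ^ 2 * (d' + 1) ^ 2 ≤ r * r := Nat.mul_le_mul a1 a2
  rw [← h2] at a3
  have a4 : (d * d') * (d * d') < (d + 1) ^ 2 * (d' + 1) ^ 2 := by
    have : d * d' < (d + 1) * (d' + 1) := by nlinarith
    calc (d * d') * (d * d') < ((d + 1) * (d' + 1)) * ((d + 1) * (d' + 1)) := Nat.mul_lt_mul'' this this
      _ = _ := by ring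
  omega

end MH
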